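import Pool.Agent.X306.SS.B
import Pool.Agent.X72.RSR.Stm

/-! Part RS_ROW_P (S_RP). -/

set_option autoImplicit false

open MeasureTheory ProbabilityTheory Filter Topology
open scoped ENNReal

namespace Pool.Agent.X283.RS

open Pool.Agent.X19.SS Pool.Agent.X306.SS

theorem t_RP : Pool.Agent.X72.RSR.S_RP := by
  intro K _ _ _ l p f hf
  have hmeas : Measurable (fun (h : Fin l → K) (a : Fin p) => ∑ i, star (f a i) * h i) := by
    fun_prop
  refine ⟨hmeas, ?_⟩
  let L : EuclideanSpace K (Fin l) → EuclideanSpace K (Fin p) :=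
    fun x => WithLp.toLp 2 (fun a => ∑ i, star (f a i) * x i)
  let J : EuclideanSpace K (Fin p) → EuclideanSpace K (Fin l) :=
    fun t => WithLp.toLp 2 (fun i => ∑ a, t a * f a i)
  have hLm : Measurable L := by fun_prop
  have key := t_A1 (EuclideanSpace K (Fin l)) (EuclideanSpace K (Fin p)) L J hLm
    (by
      intro x t
      rw [PiLp.inner_apply, PiLp.inner_apply]
      simp only [real_inner_eq_re_inner K, RCLike.inner_apply, L, J]
      rw [← map_sum, ← map_sum]
      congr 1
      simp only [map_sum, map_mul, RCLike.star_def, RCLike.conj_conj, Finset.mul_sum,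
        Finset.sum_mul]
      rw [Finset.sum_comm]
      refine Finset.sum_congr rfl fun i _ => Finset.sum_congr rfl fun a _ => ?_
      ring)
    (by
      intro t
      have hJ : J t = ∑ a, t a • f a := by
        ext i
        simp [J]
      have h1 : ‖J t‖ ^ 2 = ‖t‖ ^ 2 := by
        rw [hJ, ← inner_self_eq_norm_sq (𝕜 := K), hf.inner_sum, EuclideanSpace.norm_sq_eq, map_sum]
        refine Finset.sum_congr rfl fun a _ => ?_
        rw [RCLike.conj_mul]
        norm_cast
      exact (sq_eq_sq₀ (norm_nonneg _) (norm_nonneg _)).1 h1)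
  rw [gK_eq K (Fin p), ← key, ← t_B1 K (Fin l), Measure.map_map hLm (by fun_prop),
    Measure.map_map (by fun_prop) (by fun_prop)]
  rfl

end Pool.Agent.X283.RS
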